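import Pool.Agent.helper7.ZE.Spec

set_option autoImplicit false

/-! Row ze:BEQ (MP_baa4d7_al) -/

namespace Pool.Agent.NE.NY

open Pool.Agent.helper58.DC Pool.Agent.DI Pool.Agent.GR Pool.Agent.OB Pool.Agent.DR Pool.Agent.FI Pool.Agent.FI3 Pool.Agent.FI4 Pool.Agent.FI4I Pool.Agent.LE Pool.Agent.L5
open Pool.Agent.NAB hiding Ucl BE NUB_stmt NUD_stmt NUH_stmt NUE_stmt NUF_stmt NTK_stmt NXU_stmt NQU_stmt
open Pool.Agent.ND hiding GS ZD XX PP ZGD_stmt ZNU_stmt GBC_stmt GUC_stmt GSP_stmt GIM_stmt GST_stmt GOS_stmt GS4_stmt GFX_stmt GAC_stmt GGR_stmt GOU_stmt GSY_stmt GVF_stmt GNV_stmt GDF_stmt GC1_stmt GEV_stmt GQQ_stmt GKQ_stmt TDC_stmt GKE_stmt GKD_stmt TDI_stmt TDL_stmt TDF_stmt NDQ_stmt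
open Pool.Agent.ND.NY
open Pool.Agent.ZB (Pm Om KZ EQ BQ lQ MZc BDK)

theorem BEQ_cj {G : Type} [Group G] (l : G) (Q : Subgroup G) : cjS l⁻¹ (cjS l Q) = Q := by
  ext x
  rw [mem_cjS, mem_cjS, inv_inv]
  have h : l⁻¹ * (l * x * l⁻¹) * l = x := by group
  rw [h]

theorem BEQ (hNUD : NUD_stmt) (hYE1 : YE1_stmt) (hNDG : NDG_stmt) (hZHE : Pool.Agent.ZB.ZHE_stmt)
    (hZE1 : Pool.Agent.ZB.ZE1_stmt) : BEQ_stmt := by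
  intro p e m M hS G _ _ L ψ hψ z x hU E'
  ext η
  constructor
  · rintro ⟨hη, hSB, z', x', hU', hE'⟩
    obtain ⟨-, D, y, hD, hzD, -, hKY⟩ := hNUD p e m M hS G (L ⊓ nz E') η hη z' x' hU'
    have h1 := (hYE1 p hS.pr m G D).1 e hKY
    exact ⟨hη, hSB, D, y, hD, h1.1, (h1.2.2.2.2.2.1 z' hzD hU'.od).symm.trans hE'⟩
  · rintro ⟨hη, hSB, Q, y, hQ, hKZ, hEQ⟩
    have hloc : L ⊓ cz Q ≤ L ⊓ nz E' := by
      have h2 := (hZE1 p hS.pr m G Q hKZ).2.2.2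
      rw [hEQ] at h2
      exact le_inf inf_le_left (inf_le_right.trans (h2.2.1.trans h2.2.2.1))
    obtain ⟨-, D, y₀, hD, -, -, hKY⟩ := hNUD p e m M hS G L ψ hψ z x hU
    obtain ⟨l, -, hl1, hl2⟩ := hZHE p M hS G L (L ⊓ nz E') inf_le_left ψ hψ D y₀ hD η hη hSB Q y hQ hloc
    have h3 : KY p e m (cjS l Q) := ((hYE1 p hS.pr m G D).1 e hKY).2.2.2.1 (cjS l Q) hl1 hl2
    have h4 : KY p e m (cjS l⁻¹ (cjS l Q)) := ((hYE1 p hS.pr m G (cjS l Q)).1 e h3).2.2.2.2.1 l⁻¹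
    rw [BEQ_cj] at h4
    have h5 := (hYE1 p hS.pr m G Q).1 e h4
    obtain ⟨z', hz', hz'c, hz'o⟩ := h5.2.2.2.2.2.2
    have h6 := mem_Cz.1 (hQ.le hz')
    have h7 := hNDG p M hS G (L ⊓ nz E') η hη Q y hQ z' hz' hz'c
    refine ⟨hη, hSB, z', y, ⟨⟨e, ?_⟩, hQ.reg, h6.2.symm, h6.1, hQ.mem, hz'o, h7, Q, y, hQ, h4⟩,
      (h5.2.2.2.2.2.1 z' hz' hz'o).trans hEQ⟩
    rw [← hz'o]
    exact pow_orderOf_eq_one z'

end Pool.Agent.NE.NY
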